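import Pool.Agent.Helper82_NIB.Stmts

/-!
# Squad NIB: module FIN (the numerical induction).
-/

set_option autoImplicit false
set_option exponentiation.threshold 600

namespace Pool.Agent.NIB.H37

theorem real_part (x : ℝ) (hx : 960 ≤ x) (m : ℕ) (hm : (m : ℝ) ≤ 480) :
    (x + 1) ^ m ≤ 2 * x ^ m := by
  have hxpos : 0 < x := by linarith
  have h8 : (1 + 1 / x) ≤ Real.exp (1 / x) := by
    have := Real.add_one_le_exp (1 / x)
    linarith
  have h9 : (1 + 1 / x) ^ m ≤ Real.exp (1 / x) ^ m :=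
    pow_le_pow_left₀ (by positivity) h8 m
  have h10 : Real.exp (1 / x) ^ m ≤ 2 := by
    rw [← Real.exp_nat_mul]
    have h11 : (m : ℝ) * (1 / x) ≤ 1 / 2 := by
      rw [mul_one_div, div_le_iff₀ hxpos]
      linarith
    have h12 : Real.exp ((m : ℝ) * (1 / x)) ≤ Real.exp (1 / 2) := Real.exp_le_exp.mpr h11
    have h13 : Real.exp (1 / 2) ≤ 2 := by
      have h14 : Real.exp (1 / 2) ^ 2 = Real.exp 1 := by
        rw [← Real.exp_nat_mul]
        norm_num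
      have h15 := Real.exp_one_lt_d9
      nlinarith [Real.exp_pos (1 / 2)]
    exact h12.trans h13
  have h17 : x + 1 = (1 + 1 / x) * x := by field_simp
  rw [h17, mul_pow]
  exact mul_le_mul_of_nonneg_right (h9.trans h10) (by positivity)

theorem root_gen (m N1 K : ℕ) (hm0 : m ≠ 0) (hm : (m : ℝ) ≤ 480) (hN1 : 960 ≤ N1)
    (hK : N1 ^ m ≤ K) : ∃ N : ℕ, N1 ≤ N ∧ N ^ m ≤ K ∧ K ≤ 2 * N ^ m := by
  have hN1K : N1 ≤ K := (Nat.le_self_pow hm0 N1).trans hK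
  obtain ⟨N, h1, h2, h3⟩ : ∃ N : ℕ, N ^ m ≤ K ∧ N1 ≤ N ∧ K < (N + 1) ^ m := by
    refine ⟨Nat.findGreatest (fun n => n ^ m ≤ K) K,
      Nat.findGreatest_spec (P := fun n => n ^ m ≤ K) hN1K hK,
      Nat.le_findGreatest hN1K hK, ?_⟩
    by_contra h
    have h4 := not_lt.mp h
    have h5 := (Nat.le_self_pow hm0 _).trans h4
    have h6 := Nat.le_findGreatest (P := fun n => n ^ m ≤ K) h5 h4
    omega
  refine ⟨N, h2, h1, ?_⟩
  have hN : (960 : ℝ) ≤ N := by exact_mod_cast hN1.trans h2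
  have h7 := real_part N hN m hm
  have h18 : (K : ℝ) ≤ 2 * (N : ℝ) ^ m := by
    refine le_trans ?_ h7
    exact_mod_cast h3.le
  exact_mod_cast h18

theorem exists_root (N1 K : ℕ) (hN1 : 960 ≤ N1) (hK : N1 ^ 480 ≤ K) :
    ∃ N : ℕ, N1 ≤ N ∧ N ^ 480 ≤ K ∧ K ≤ 2 * N ^ 480 :=
  root_gen 480 N1 K (by norm_num) (by norm_num) hN1 hK

/-- the numerical inequality. -/
theorem numeric (N K : ℕ) (hN : 960 ≤ N) (h1 : N ^ 480 ≤ K) (h2 : K ≤ 2 * N ^ 480) :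
    2 * (N : ℝ) ^ 74 + ((K : ℝ) - ((N : ℝ) ^ 320 - 2 * (N : ℝ) ^ 74)) ^ (0.49 : ℝ)
      ≤ (K : ℝ) ^ (0.49 : ℝ) := by
  have hN' : (960 : ℝ) ≤ N := by exact_mod_cast hN
  have hN1 : (1 : ℝ) ≤ N := by linarith
  have hNpos : (0 : ℝ) < N := by linarith
  have h1' : (N : ℝ) ^ 480 ≤ K := by exact_mod_cast h1
  have h2' : (K : ℝ) ≤ 2 * (N : ℝ) ^ 480 := by exact_mod_cast h2
  have hKpos : (0 : ℝ) < K := lt_of_lt_of_le (by positivity) h1'
  set d : ℝ := (N : ℝ) ^ 320 - 2 * (N : ℝ) ^ 74 with hd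
  have h74 : 2 * (N : ℝ) ^ 74 ≤ (N : ℝ) ^ 320 / 2 := by
    have h3 : (N : ℝ) ^ 74 * (N : ℝ) ≤ (N : ℝ) ^ 320 := by
      rw [← pow_succ]
      exact pow_le_pow_right₀ hN1 (by norm_num)
    have h4 : (N : ℝ) ^ 74 * 960 ≤ (N : ℝ) ^ 74 * N := mul_le_mul_of_nonneg_left hN' (by positivity)
    have h5 : 0 < (N : ℝ) ^ 74 := by positivity
    linarith
  have hd1 : (N : ℝ) ^ 320 / 2 ≤ d := by rw [hd]; linarith
  have hd0 : 0 ≤ d := le_trans (by positivity) hd1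
  have hdK : d ≤ K := by
    have h3 : (N : ℝ) ^ 320 ≤ (N : ℝ) ^ 480 := pow_le_pow_right₀ hN1 (by norm_num)
    have h5 : 0 ≤ (N : ℝ) ^ 74 := by positivity
    rw [hd]
    linarith
  -- Bernoulli
  have hB : (1 + (-(d / K))) ^ (0.49 : ℝ) ≤ 1 + 0.49 * (-(d / K)) := by
    refine rpow_one_add_le_one_add_mul_self ?_ (by norm_num) (by norm_num)
    have : d / K ≤ 1 := (div_le_one hKpos).mpr hdK
    linarith
  have hfac : ((K : ℝ) - d) ^ (0.49 : ℝ) = (K : ℝ) ^ (0.49 : ℝ) * (1 + (-(d / K))) ^ (0.49 : ℝ) := by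
    rw [← Real.mul_rpow hKpos.le]
    · congr 1
      field_simp
      ring
    · have : d / K ≤ 1 := (div_le_one hKpos).mpr hdK
      linarith
  have hKp : (0 : ℝ) < (K : ℝ) ^ (0.49 : ℝ) := Real.rpow_pos_of_pos hKpos _
  have h6 : ((K : ℝ) - d) ^ (0.49 : ℝ)
      ≤ (K : ℝ) ^ (0.49 : ℝ) - 0.49 * d * ((K : ℝ) ^ (0.49 : ℝ) / K) := by
    rw [hfac]
    have := mul_le_mul_of_nonneg_left hB hKp.le
    refine this.trans (le_of_eq ?_)
    field_simp
    ring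
  -- the power of K
  have h7 : (K : ℝ) ^ (0.49 : ℝ) / K = ((K : ℝ) ^ (0.51 : ℝ))⁻¹ := by
    rw [← Real.rpow_neg hKpos.le]
    nth_rewrite 2 [← Real.rpow_one (K : ℝ)]
    rw [← Real.rpow_sub hKpos]
    norm_num
  have h8 : (K : ℝ) ^ (0.51 : ℝ) ≤ 2 * (N : ℝ) ^ 245 := by
    calc (K : ℝ) ^ (0.51 : ℝ) ≤ (2 * (N : ℝ) ^ 480) ^ (0.51 : ℝ) :=
          Real.rpow_le_rpow hKpos.le h2' (by norm_num)
      _ = 2 ^ (0.51 : ℝ) * ((N : ℝ) ^ 480) ^ (0.51 : ℝ) :=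
          Real.mul_rpow (by norm_num) (by positivity)
      _ ≤ 2 * (N : ℝ) ^ 245 := by
          have h9 : (2 : ℝ) ^ (0.51 : ℝ) ≤ 2 := by
            calc (2 : ℝ) ^ (0.51 : ℝ) ≤ (2 : ℝ) ^ (1 : ℝ) :=
                  Real.rpow_le_rpow_of_exponent_le (by norm_num) (by norm_num)
              _ = 2 := Real.rpow_one 2
          have h10 : ((N : ℝ) ^ 480) ^ (0.51 : ℝ) ≤ (N : ℝ) ^ 245 := by
            rw [← Real.rpow_natCast, ← Real.rpow_natCast, ← Real.rpow_mul hNpos.le]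
            exact Real.rpow_le_rpow_of_exponent_le hN1 (by norm_num)
          exact mul_le_mul h9 h10 (by positivity) (by norm_num)
  have hK51 : 0 < (K : ℝ) ^ (0.51 : ℝ) := Real.rpow_pos_of_pos hKpos _
  have h11 : 2 * (N : ℝ) ^ 74 ≤ 0.49 * d * ((K : ℝ) ^ (0.49 : ℝ) / K) := by
    rw [h7, ← div_eq_mul_inv, le_div_iff₀ hK51]
    calc 2 * (N : ℝ) ^ 74 * (K : ℝ) ^ (0.51 : ℝ) ≤ 2 * (N : ℝ) ^ 74 * (2 * (N : ℝ) ^ 245) :=
          mul_le_mul_of_nonneg_left h8 (by positivity)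
      _ = 4 * (N : ℝ) ^ 319 := by ring
      _ ≤ 0.49 * ((N : ℝ) ^ 320 / 2) := by
          have h12 : (N : ℝ) ^ 320 = (N : ℝ) ^ 319 * N := by ring
          rw [h12]
          have h13 : (N : ℝ) ^ 319 * 960 ≤ (N : ℝ) ^ 319 * N :=
            mul_le_mul_of_nonneg_left hN' (by positivity)
          have h14 : 0 < (N : ℝ) ^ 319 := by positivity
          linarith
      _ ≤ 0.49 * d := by linarith
  linarith

/-- FIN. -/
theorem fin_ (hI : RoundStmt) (hR : RedStmt) (hB : BasStmt) : FinStmt := by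
  obtain ⟨N0, hN0⟩ := hI
  set N1 : ℕ := max N0 960 with hN1
  refine ⟨((N1 ^ 480 : ℕ) : ℝ), fun K => ?_⟩
  induction K using Nat.strong_induction_on with
  | _ K ih =>
    rcases Nat.lt_or_ge K (N1 ^ 480) with hK | hK
    · refine ⟨2 * K, hB K, ?_⟩
      have h1 : (K : ℝ) ≤ ((N1 ^ 480 : ℕ) : ℝ) := by exact_mod_cast hK.le
      have h2 : 0 ≤ (K : ℝ) ^ (0.49 : ℝ) := Real.rpow_nonneg (Nat.cast_nonneg K) _
      push_cast at h1 ⊢
      linarith
    · obtain ⟨N, hN, h1, h2⟩ := exists_root N1 K (le_max_right _ _) hK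
      have hN960 : 960 ≤ N := (le_max_right _ _).trans hN
      have hN0' : N0 ≤ N := (le_max_left _ _).trans hN
      have hNpos : 0 < N := by omega
      have h320 : N ^ 320 ≤ K := (Nat.pow_le_pow_right hNpos (by norm_num)).trans h1
      have h74 : 2 * N ^ 74 < N ^ 320 := by
        calc 2 * N ^ 74 < N * N ^ 74 := Nat.mul_lt_mul_of_pos_right (by omega) (by positivity)
          _ = N ^ 75 := by ring
          _ ≤ N ^ 320 := Nat.pow_le_pow_right hNpos (by norm_num)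
      have hlt : K + 2 * N ^ 74 - N ^ 320 < K := by omega
      obtain ⟨k', hk1, hk2⟩ := ih _ hlt
      refine ⟨k' + N ^ 320, hR N K k' (hN0 N hN0' K h1 h2) h320 h74.le hk1, ?_⟩
      have hcast : ((K + 2 * N ^ 74 - N ^ 320 : ℕ) : ℝ)
          = (K : ℝ) - ((N : ℝ) ^ 320 - 2 * (N : ℝ) ^ 74) := by
        have h3 : N ^ 320 ≤ K + 2 * N ^ 74 := by omega
        rw [Nat.cast_sub h3]
        push_cast
        ring
      rw [hcast] at hk2
      have hnum := numeric N K hN960 h1 h2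
      push_cast at hk2 ⊢
      linarith

end Pool.Agent.NIB.H37
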