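import Pool.Agent.Helper82_NIB.Stmts
import Pool.Agent.Helper75_LA.Split

/-!
# Squad NIB: module ORI (balanced orientation).
-/

set_option autoImplicit false

open SimpleGraph

namespace Pool.Agent.NIB.H37

open Pool.Agent.Helper75_LA

/-- ORI. -/
theorem ori : OriStmt := by
  intro V _ G h hG
  classical
  have := Fintype.ofFinite V
  obtain ⟨E, hE⟩ : ∃ E : Finset (V × V), ∀ z : V × V, z ∈ E ↔ G.Adj z.1 z.2 :=
    ⟨Finset.univ.filter (fun z => G.Adj z.1 z.2), fun z => by simp⟩
  obtain ⟨f, hf1, hf2⟩ := balanced_split (fun z : V × V => z.1) (fun z : V × V => s(z.1, z.2)) E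
  -- the two orientations of an edge get different colours
  have hflip : ∀ u v, G.Adj u v → f (v, u) = !f (u, v) := by
    intro u v huv
    by_contra hcon
    have heq : f (v, u) = f (u, v) := by
      revert hcon
      cases f (v, u) <;> cases f (u, v) <;> simp
    have h1 := hf2 s(u, v) (f (u, v))
    have h2 : (E.filter (fun z => s(z.1, z.2) = s(u, v) ∧ f z = !f (u, v))).card = 0 := by
      rw [Finset.card_eq_zero, Finset.filter_eq_empty_iff]
      rintro ⟨a, b⟩ _ ⟨h3, h4⟩
      simp only [Sym2.eq_iff] at h3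
      rcases h3 with ⟨rfl, rfl⟩ | ⟨rfl, rfl⟩
      · revert h4; cases f (a, b) <;> simp
      · rw [heq] at h4; revert h4; cases f (b, a) <;> simp
    have h3 : 2 ≤ (E.filter (fun z => s(z.1, z.2) = s(u, v) ∧ f z = f (u, v))).card := by
      have hsub : ({(u, v), (v, u)} : Finset (V × V)) ⊆
          E.filter (fun z => s(z.1, z.2) = s(u, v) ∧ f z = f (u, v)) := by
        intro z hz
        simp only [Finset.mem_insert, Finset.mem_singleton] at hz
        rw [Finset.mem_filter, hE]
        rcases hz with rfl | rfl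
        · exact ⟨huv, rfl, rfl⟩
        · exact ⟨huv.symm, Sym2.eq_swap, heq⟩
      have h4 := Finset.card_le_card hsub
      rw [Finset.card_pair (by
        intro h5
        rw [Prod.mk.injEq] at h5
        exact huv.ne h5.1)] at h4
      exact h4
    omega
  have hdeg : ∀ v, (E.filter (fun z => z.1 = v)).card = 2 * h := by
    intro v
    rw [← hG v, ← Set.ncard_coe_finset]
    rw [← Set.ncard_image_of_injective (f := fun y : V => (v, y)) (G.neighborSet v)
      (fun a b hab => by simpa using hab)]
    congr 1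
    ext ⟨a, b⟩
    simp only [Finset.coe_filter, Set.mem_image, mem_neighborSet, Prod.mk.injEq, hE]
    constructor
    · rintro ⟨h1, rfl⟩
      exact ⟨b, h1, rfl, rfl⟩
    · rintro ⟨y, h1, rfl, rfl⟩
      exact ⟨h1, rfl⟩
  have hhalf : ∀ v b, (E.filter (fun z => z.1 = v ∧ f z = b)).card = h := by
    intro v b
    have h1 := half_of_balanced (fun z : V × V => z.1) E f hf1 v b
    have h2 := half_of_balanced (fun z : V × V => z.1) E f hf1 v (!b)
    have h3 : (E.filter (fun z => z.1 = v ∧ f z = b)).card
        + (E.filter (fun z => z.1 = v ∧ f z = !b)).card = (E.filter (fun z => z.1 = v)).card := by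
      rw [← Finset.card_filter_add_card_filter_not (s := E.filter (fun z => z.1 = v))
        (fun z => f z = b), Finset.filter_filter, Finset.filter_filter]
      congr 2
      ext z
      simp only [Finset.mem_filter]
      constructor
      · rintro ⟨h4, h5, h6⟩
        refine ⟨h4, h5, ?_⟩
        rw [h6]
        cases b <;> simp
      · rintro ⟨h4, h5, h6⟩
        refine ⟨h4, h5, ?_⟩
        cases b <;> simpa using h6
    rw [hdeg] at h1 h2 h3
    omega
  refine ⟨fun u v => G.Adj u v ∧ f (u, v) = true, ⟨fun u => ?_, fun v => ?_⟩,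
    fun u v h1 => h1.1, fun u v h1 => ?_, fun u v h1 h2 => ?_⟩
  · rw [← hhalf u true, ← Set.ncard_coe_finset]
    rw [← Set.ncard_image_of_injective (f := fun y : V => (u, y)) _
      (fun a b hab => by simpa using hab)]
    congr 1
    ext ⟨a, b⟩
    simp only [Finset.coe_filter, Set.mem_image, Set.mem_ofPred_eq, Prod.mk.injEq, hE]
    constructor
    · rintro ⟨y, ⟨h1, h2⟩, rfl, rfl⟩
      exact ⟨h1, rfl, h2⟩
    · rintro ⟨h1, rfl, h2⟩
      exact ⟨b, ⟨h1, h2⟩, rfl, rfl⟩
  · rw [← hhalf v false, ← Set.ncard_coe_finset]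
    rw [← Set.ncard_image_of_injective (f := fun y : V => (v, y)) _
      (fun a b hab => by simpa using hab)]
    congr 1
    ext ⟨a, b⟩
    simp only [Finset.coe_filter, Set.mem_image, Set.mem_ofPred_eq, Prod.mk.injEq, hE]
    constructor
    · rintro ⟨y, ⟨h1, h2⟩, rfl, rfl⟩
      refine ⟨h1.symm, rfl, ?_⟩
      rw [hflip y v h1, h2]
      rfl
    · rintro ⟨h1, rfl, h2⟩
      refine ⟨b, ⟨h1.symm, ?_⟩, rfl, rfl⟩
      rw [hflip a b h1, h2]
      rfl
  · by_cases h2 : f (u, v) = true
    · exact Or.inl ⟨h1, h2⟩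
    · refine Or.inr ⟨h1.symm, ?_⟩
      rw [hflip u v h1]
      simpa using h2
  · have := hflip u v h1.1
    rw [h1.2, h2.2] at this
    exact absurd this (by decide)

end Pool.Agent.NIB.H37
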